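import Mathlib

/-!
# Bar-joint frameworks in `ℓ_q^d`
-/

set_option autoImplicit false

namespace Pool.Agent.H440Z.Rig

open scoped ENNReal

/-- The norm `‖·‖_q` on `ℝ^d`, for `q ∈ [1, ∞]`. -/
noncomputable def lqNorm (q : ℝ≥0∞) {d : ℕ} (x : Fin d → ℝ) : ℝ :=
  ‖(WithLp.toLp q x : PiLp q (fun _ : Fin d => ℝ))‖

variable {V : Type} {d : ℕ}

/-- The norm is differentiable at `p(u) - p(v)` for every edge `uv`. -/
def WellPositioned (q : ℝ≥0∞) (G : SimpleGraph V) (p : V → Fin d → ℝ) : Prop :=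
  ∀ u v, G.Adj u v → DifferentiableAt ℝ (lqNorm q) (p u - p v)

/-- `m` is an infinitesimal flex of the framework `(G, p)` in `ℓ_q^d`. -/
def IsFlex (q : ℝ≥0∞) (G : SimpleGraph V) (p m : V → Fin d → ℝ) : Prop :=
  ∀ u v, G.Adj u v → fderiv ℝ (lqNorm q) (p u - p v) (m u - m v) = 0

/-- The framework is well-positioned and every infinitesimal flex is constant. -/
def Rigid (q : ℝ≥0∞) (G : SimpleGraph V) (p : V → Fin d → ℝ) : Prop :=
  WellPositioned q G p ∧ ∀ m : V → Fin d → ℝ, IsFlex q G p m → ∀ u v, m u = m v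

/-- The framework is rigid and stays rigid when any one edge is deleted. -/
def RedundantlyRigid (q : ℝ≥0∞) (G : SimpleGraph V) (p : V → Fin d → ℝ) : Prop :=
  Rigid q G p ∧ ∀ e ∈ G.edgeSet, Rigid q (G.deleteEdges {e}) p

/-- The edge set of `G` is the disjoint union of the edge sets of `d` Hamilton cycles of `G`. -/
def HamiltonUnion [DecidableEq V] (d : ℕ) (G : SimpleGraph V) : Prop :=
  ∃ (v : Fin d → V) (H : ∀ i, G.Walk (v i) (v i)), (∀ i, (H i).IsHamiltonianCycle) ∧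
    ∀ e ∈ G.edgeSet, ∃! i, e ∈ (H i).edges

end Pool.Agent.H440Z.Rig
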