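import Pool.Agent.H440Z.Rig.Defs

/-!
# Unions of Hamilton cycles are redundantly rigid in `ℓ_q^d` for all but finitely many `q`
-/

set_option autoImplicit false
set_option linter.all false

namespace Pool.Agent.H440Z.Rig

open scoped ENNReal
open Filter Topology

theorem expsum_finite {ι : Type} (S : Finset ι) (a m : ι → ℝ) (hm : ∀ i ∈ S, 0 < m i)
    (hinj : Set.InjOn m S) (ha : ∀ i ∈ S, a i ≠ 0) (hS : S.Nonempty) :
    {s : ℝ | 0 < s ∧ ∑ i ∈ S, a i * m i ^ s = 0}.Finite := by
  classical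
  obtain ⟨i0, hi0, hmax⟩ := Finset.exists_max_image S m hS
  have h1 : Tendsto (fun s : ℝ => ∑ i ∈ S, a i * (m i / m i0) ^ s) atTop
      (𝓝 (∑ i ∈ S, if i = i0 then a i else 0)) := by
    refine tendsto_finset_sum _ fun i hi => ?_
    by_cases h : i = i0
    · subst h
      simp [div_self (hm i hi).ne']
    · rw [if_neg h]
      have hlt : m i / m i0 < 1 := by
        rw [div_lt_one (hm i0 hi0)]
        exact lt_of_le_of_ne (hmax i hi) fun e => h (hinj hi hi0 e)
      have hp : 0 < m i / m i0 := div_pos (hm i hi) (hm i0 hi0)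
      simpa using (tendsto_rpow_atTop_of_base_lt_one _ (by linarith) hlt).const_mul (a i)
  rw [Finset.sum_ite_eq' S i0, if_pos hi0] at h1
  obtain ⟨T, hT⟩ := eventually_atTop.1 (h1.eventually_ne (ha i0 hi0))
  have h2 : ∀ s ≥ T, ∑ i ∈ S, a i * m i ^ s ≠ 0 := by
    intro s hs h0
    apply hT s hs
    have : ∀ i ∈ S, a i * (m i / m i0) ^ s = a i * m i ^ s / m i0 ^ s := by
      intro i hi
      rw [Real.div_rpow (hm i hi).le (hm i0 hi0).le, mul_div_assoc]
    rw [Finset.sum_congr rfl this, ← Finset.sum_div, h0, zero_div]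
  have han : AnalyticOnNhd ℝ (fun s : ℝ => ∑ i ∈ S, a i * m i ^ s) (Set.Icc 0 (max T 0)) := by
    intro s _
    have e : (fun s : ℝ => ∑ i ∈ S, a i * m i ^ s) =
        fun s => ∑ i ∈ S, a i * Real.exp (Real.log (m i) * s) := by
      funext s
      exact Finset.sum_congr rfl fun i hi => by rw [Real.rpow_def_of_pos (hm i hi)]
    rw [e]
    fun_prop
  rcases han.eqOn_zero_or_eventually_ne_zero_of_preconnected isPreconnected_Icc with h | h
  · exact absurd (h ⟨le_max_right _ _, le_rfl⟩) (h2 _ (le_max_left _ _))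
  · refine (isCompact_Icc.finite_sdiff_of_mem_codiscreteWithin h).subset ?_
    rintro s ⟨s1, s2⟩
    refine ⟨⟨s1.le, ?_⟩, fun h => h s2⟩
    by_contra hc
    exact h2 s (le_trans (le_max_left _ _) (not_le.1 hc).le) s2

theorem exists_generic (n d : ℕ) : ∃ x : Fin n → Fin d → ℕ,
    (∀ u v k, u < v → x u k ≠ x v k) ∧
    Function.Injective (fun α : {t : Fin n × Fin n × Fin d // t.1 < t.2.1} →₀ ℕ =>
      ∏ j, ((x j.1.1 j.1.2.2 : ℤ) - x j.1.2.1 j.1.2.2).natAbs ^ α j) := by
  classical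
  set J := {t : Fin n × Fin n × Fin d // t.1 < t.2.1} with hJ
  have hinf : {p : ℕ | p.Prime ∧ n < p}.Infinite :=
    (Nat.infinite_setOf_prime.diff (Set.finite_Iic n)).mono fun p hp => ⟨hp.1, not_le.1 hp.2⟩
  let ℓ : J → ℕ := fun j => hinf.natEmbedding _ (Fintype.equivFin J j)
  have l1 : ∀ j, (ℓ j).Prime := fun j => (hinf.natEmbedding _ _).2.1
  have l2 : ∀ j, n < ℓ j := fun j => (hinf.natEmbedding _ _).2.2
  have l3 : Function.Injective ℓ := fun i j h =>
    (Fintype.equivFin J).injective (Fin.ext ((hinf.natEmbedding _).injective (Subtype.ext h)))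
  let r : J → Fin n → Fin d → ℕ := fun j w k =>
    if w = j.1.1 ∧ k = j.1.2.2 then j.1.2.1 + ℓ j else w
  have hx : ∀ w k, ∃ x : ℕ, ∀ j, x ≡ r j w k [MOD ℓ j ^ 2] := by
    intro w k
    obtain ⟨x, hx⟩ := Nat.chineseRemainderOfFinset (fun j => r j w k) (fun j => ℓ j ^ 2)
      Finset.univ (fun j _ => pow_ne_zero _ (l1 j).ne_zero) (fun i _ j _ hij =>
        Nat.Coprime.pow 2 2 ((Nat.coprime_primes (l1 i) (l1 j)).2 fun h => hij (l3 h)))
    exact ⟨x, fun j => hx j (Finset.mem_univ j)⟩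
  choose x hx using hx
  let D : J → ℤ := fun j => (x j.1.1 j.1.2.2 : ℤ) - x j.1.2.1 j.1.2.2
  have hD : ∀ j j' : J, ((ℓ j : ℤ) ^ 2) ∣ D j' - ((r j j'.1.1 j'.1.2.2 : ℤ) - r j j'.1.2.1 j'.1.2.2) := by
    intro j j'
    have a1 := (Nat.modEq_iff_dvd.1 (hx j'.1.1 j'.1.2.2 j).symm)
    have a2 := (Nat.modEq_iff_dvd.1 (hx j'.1.2.1 j'.1.2.2 j).symm)
    have := dvd_sub a1 a2
    push_cast at this
    have e : D j' - ((r j j'.1.1 j'.1.2.2 : ℤ) - r j j'.1.2.1 j'.1.2.2) =
        (x j'.1.1 j'.1.2.2 : ℤ) - r j j'.1.1 j'.1.2.2 -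
          ((x j'.1.2.1 j'.1.2.2 : ℤ) - r j j'.1.2.1 j'.1.2.2) := by
      simp only [D]
      ring
    rw [e]
    exact this
  have self1 : ∀ j, ((ℓ j : ℤ) ^ 2) ∣ D j - ℓ j := by
    intro j
    have := hD j j
    have hne : j.1.2.1 ≠ j.1.1 := j.2.ne'
    simp only [r, and_self, if_true, hne, false_and, if_false] at this
    push_cast at this
    convert this using 2
    ring
  have small : ∀ (j : J) (a b : Fin n), a ≠ b → ¬ (ℓ j : ℤ) ∣ (a : ℤ) - b := by
    intro j a b hab h
    have := Int.eq_zero_of_abs_lt_dvd h (by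
      have := l2 j
      have := a.2
      have := b.2
      rw [abs_lt]
      constructor <;> omega)
    exact hab (Fin.ext (by omega))
  have other : ∀ j j' : J, j' ≠ j → ¬ (ℓ j : ℤ) ∣ D j' := by
    rintro j j' hne h
    have h1 := (dvd_sub_right h).1 (Dvd.dvd.trans (dvd_pow_self _ two_ne_zero) (hD j j'))
    obtain ⟨⟨u, v, k⟩, huv⟩ := j
    obtain ⟨⟨u', v', k'⟩, huv'⟩ := j'
    simp only at huv huv'
    simp only [r] at h1
    by_cases c1 : u' = u ∧ k' = k
    · have c2 : ¬ (v' = u ∧ k' = k) := fun h => huv'.ne (c1.1.trans h.1.symm)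
      rw [if_pos c1, if_neg c2] at h1
      refine small ⟨(u, v, k), huv⟩ v v' (fun e => hne (by simp [c1.1, c1.2, e])) ?_
      have := dvd_sub h1 (dvd_refl _)
      push_cast at this
      rwa [show ∀ a b c : ℤ, a + b - c - b = a - c from fun a b c => by ring] at this
    · rw [if_neg c1] at h1
      by_cases c2 : v' = u ∧ k' = k
      · rw [if_pos c2] at h1
        refine small ⟨(u, v, k), huv⟩ u' v (fun e => ?_) ?_
        · rw [e, c2.1] at huv'
          exact lt_asymm huv huv'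
        · have := dvd_add h1 (dvd_refl _)
          push_cast at this
          rwa [show ∀ a b c : ℤ, a - (b + c) + c = a - b from fun a b c => by ring] at this
      · rw [if_neg c2] at h1
        exact small _ u' v' huv'.ne h1
  have self2 : ∀ j, ¬ ((ℓ j : ℤ) ^ 2) ∣ D j := by
    intro j h
    have h1 := (dvd_sub_right h).1 (self1 j)
    have h2 : (0 : ℤ) < ℓ j := by exact_mod_cast (l1 j).pos
    have h3 : (2 : ℤ) ≤ ℓ j := by exact_mod_cast (l1 j).two_le
    have := Int.le_of_dvd h2 h1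
    nlinarith
  have hD0 : ∀ j, D j ≠ 0 := fun j h => self2 j (h ▸ dvd_zero _)
  have fac : ∀ j j', (D j').natAbs.factorization (ℓ j) = if j' = j then 1 else 0 := by
    intro j j'
    by_cases h : j' = j
    · subst h
      rw [if_pos rfl]
      have h0 : (D j').natAbs ≠ 0 := Int.natAbs_ne_zero.2 (hD0 j')
      have a1 := ((l1 j').pow_dvd_iff_le_factorization (k := 1) h0).1 (by
        rw [pow_one, ← Int.natCast_dvd]
        have := Dvd.dvd.trans (dvd_pow_self _ two_ne_zero) (self1 j')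
        exact (dvd_sub_left (dvd_refl _)).1 this)
      have a2 := mt ((l1 j').pow_dvd_iff_le_factorization (k := 2) h0).2 (by
        rw [← Int.natCast_dvd]
        push_cast
        exact self2 j')
      omega
    · rw [if_neg h]
      apply Nat.factorization_eq_zero_of_not_dvd
      rw [← Int.natCast_dvd]
      exact other j j' h
  refine ⟨x, fun u v k huv h => hD0 ⟨(u, v, k), huv⟩ (by simp [D, h]), fun α β h => ?_⟩
  ext j
  have key : ∀ α : J →₀ ℕ, (∏ j', (D j').natAbs ^ α j').factorization (ℓ j) = α j := by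
    intro α
    rw [Nat.factorization_prod (fun j' _ => pow_ne_zero _ (Int.natAbs_ne_zero.2 (hD0 j')))]
    simp only [Nat.factorization_pow, Finsupp.finset_sum_apply, Finsupp.smul_apply, fac,
      smul_eq_mul, mul_ite, mul_one, mul_zero]
    exact (Finset.sum_ite_eq' Finset.univ j α).trans (if_pos (Finset.mem_univ _))
  rw [← key α, ← key β]
  exact congrArg (fun z : ℕ => z.factorization (ℓ j)) h

theorem lq_deriv {d : ℕ} {q : ℝ} (hq : 1 < q) {x : Fin d → ℝ} (hx : x ≠ 0) :
    ∃ c : ℝ, c ≠ 0 ∧ DifferentiableAt ℝ (lqNorm (ENNReal.ofReal q)) x ∧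
      ∀ h, fderiv ℝ (lqNorm (ENNReal.ofReal q)) x h = c * ∑ k, |x k| ^ (q - 2) * x k * h k := by
  have e : (lqNorm (ENNReal.ofReal q) : (Fin d → ℝ) → ℝ) =
      fun x => (∑ k, |x k| ^ q) ^ (1 / q) := by
    funext y
    have : (ENNReal.ofReal q).toReal = q := ENNReal.toReal_ofReal (by linarith)
    rw [lqNorm, PiLp.norm_eq_sum (by rw [this]; linarith), this]
    simp
  have hpos : 0 < ∑ k, |x k| ^ q := by
    obtain ⟨k, hk⟩ := Function.ne_iff.1 hx
    exact Finset.sum_pos' (fun i _ => by positivity)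
      ⟨k, Finset.mem_univ _, Real.rpow_pos_of_pos (abs_pos.2 hk) _⟩
  have h1 : HasFDerivAt (fun y : Fin d → ℝ => ∑ k, |y k| ^ q)
      (∑ k, (q * |x k| ^ (q - 2) * x k) • (ContinuousLinearMap.proj k : (Fin d → ℝ) →L[ℝ] ℝ)) x := by
    apply HasFDerivAt.fun_sum
    intro k _
    exact HasDerivAt.comp_hasFDerivAt (h₂ := fun t : ℝ => |t| ^ q) (f := fun y : Fin d → ℝ => y k)
      x (hasDerivAt_abs_rpow (x k) hq) (hasFDerivAt_apply (𝕜 := ℝ) k x)
  have h2 := h1.rpow_const (p := 1 / q) (Or.inl hpos.ne')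
  rw [e]
  refine ⟨(1 / q * (∑ k, |x k| ^ q) ^ (1 / q - 1)) * q, by positivity, h2.differentiableAt,
    fun h => ?_⟩
  rw [h2.fderiv]
  simp only [ContinuousLinearMap.smul_apply, ContinuousLinearMap.sum_apply,
    ContinuousLinearMap.proj_apply, smul_eq_mul, Finset.mul_sum]
  exact Finset.sum_congr rfl fun k _ => by ring

theorem walk_const {V : Type} {G : SimpleGraph V} (f : V → ℝ) {u v : V} (c : G.Walk u v)
    (h : ∀ a b, s(a, b) ∈ c.edges → f a = f b) : f u = f v := by
  induction c with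
  | nil => rfl
  | cons hadj c ih =>
    exact (h _ _ (by simp)).trans (ih fun a b hab => h a b (by simp [hab]))

theorem cycle_const {V : Type} [DecidableEq V] {G : SimpleGraph V} (f : V → ℝ) {v : V}
    {c : G.Walk v v} (hc : c.IsHamiltonianCycle) (e : Sym2 V)
    (h : ∀ a b, s(a, b) ∈ c.edges → s(a, b) ≠ e → f a = f b) (a : V) : f a = f v := by
  have ha : a ∈ c.support := hc.mem_support a
  have hs := c.take_spec ha
  have hn : ((c.takeUntil a ha).append (c.dropUntil a ha)).edges.Nodup := by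
    rw [hs]
    exact hc.isCycle.isTrail.edges_nodup
  rw [SimpleGraph.Walk.edges_append, List.nodup_append] at hn
  by_cases h1 : e ∈ (c.takeUntil a ha).edges
  · exact walk_const f (c.dropUntil a ha) fun x y hxy =>
      h x y (c.edges_dropUntil_subset ha hxy) (fun he => hn.2.2 _ h1 _ hxy he.symm)
  · exact (walk_const f (c.takeUntil a ha) fun x y hxy =>
      h x y (c.edges_takeUntil_subset ha hxy) (fun he => h1 (he ▸ hxy))).symm

end Pool.Agent.H440Z.Rig
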