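import Pool.Agent.H440Z.Rig.Defs

/-!
# `K_5` has no redundantly rigid placement in `ℓ_1^2` and `ℓ_∞^2`
-/

set_option autoImplicit false
set_option linter.all false

namespace Pool.Agent.H440Z.Rig

open scoped ENNReal

theorem fderiv_zero {N : (Fin 2 → ℝ) → ℝ} {a : (Fin 2 → ℝ) →ₗ[ℝ] ℝ} (hN : ∀ x, |a x| ≤ N x)
    {x e : Fin 2 → ℝ} (he : a e = 0) (hx : N x = |a x|) (hd : DifferentiableAt ℝ N x) :
    fderiv ℝ N x e = 0 := by
  have h1 : HasDerivAt (fun t : ℝ => x + t • e) e 0 := by
    simpa using ((hasDerivAt_id (0 : ℝ)).smul_const e).const_add x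
  have h2 : HasDerivAt (fun t : ℝ => N (x + t • e)) (fderiv ℝ N x e) 0 := by
    have h3 : HasFDerivAt N (fderiv ℝ N x) (x + (0 : ℝ) • e) := by simpa using hd.hasFDerivAt
    exact h3.comp_hasDerivAt 0 h1
  refine IsLocalMin.hasDerivAt_eq_zero ?_ h2
  refine Filter.Eventually.of_forall fun t => ?_
  have := hN (x + t • e)
  simp only [map_add, map_smul, he, smul_zero, add_zero, zero_smul] at this ⊢
  rwa [hx]

theorem two_le_card {q : ℝ≥0∞} {a b : (Fin 2 → ℝ) →ₗ[ℝ] ℝ}
    (hN : ∀ x, lqNorm q x = max |a x| |b x|) {e : Fin 2 → ℝ} (he : a e = 0) (he0 : e ≠ 0)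
    {p : Fin 5 → Fin 2 → ℝ} (h : RedundantlyRigid q (⊤ : SimpleGraph (Fin 5)) p) (v : Fin 5) :
    2 ≤ (Finset.univ.filter (fun u => |a (p u) - a (p v)| < |b (p u) - b (p v)|)).card := by
  by_contra hlt
  obtain ⟨u0, hu0, hS⟩ : ∃ u0, u0 ≠ v ∧ ∀ u, u ≠ u0 → |b (p u) - b (p v)| ≤ |a (p u) - a (p v)| := by
    by_cases hex : ∃ u, |a (p u) - a (p v)| < |b (p u) - b (p v)|
    · obtain ⟨u0, h0⟩ := hex
      refine ⟨u0, fun h => by simp [h] at h0, fun u hu => ?_⟩
      by_contra hc
      apply hlt
      exact Finset.one_lt_card.2 ⟨u, by simpa using hc, u0, by simpa using h0, hu⟩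
    · push Not at hex
      obtain ⟨u0, h0⟩ := exists_ne v
      exact ⟨u0, h0, fun u _ => hex u⟩
  obtain ⟨w1, w2⟩ := h.2 s(v, u0) (by simpa using hu0.symm)
  have hle : ∀ x, |a x| ≤ lqNorm q x := fun x => by rw [hN]; exact le_max_left _ _
  have := w2 (fun w => if w = v then e else 0) (by
    intro u w huw
    have hd := w1 u w huw
    simp only [SimpleGraph.deleteEdges_adj, SimpleGraph.top_adj, Set.mem_singleton_iff] at huw
    by_cases hu : u = v
    · subst hu
      have hw : w ≠ u0 := fun h => huw.2 (by rw [h])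
      simp only [if_true, if_neg huw.1.symm, sub_zero]
      refine fderiv_zero hle he ?_ hd
      rw [hN, max_eq_left]
      rw [map_sub, map_sub, abs_sub_comm, abs_sub_comm (a _)]
      exact hS w hw
    · by_cases hw : w = v
      · subst hw
        have hw : u ≠ u0 := fun h => huw.2 (by rw [h, Sym2.eq_swap])
        simp only [if_true, if_neg hu, zero_sub, map_neg, neg_eq_zero]
        refine fderiv_zero hle he ?_ hd
        rw [hN, max_eq_left]
        rw [map_sub, map_sub]
        exact hS u hw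
      · simp [hu, hw]) v u0
  simp only [if_true, if_neg hu0] at this
  exact he0 this

theorem five_points (A B : Fin 5 → ℝ)
    (h1 : ∀ v, 2 ≤ (Finset.univ.filter (fun u => |A u - A v| < |B u - B v|)).card)
    (h2 : ∀ v, 2 ≤ (Finset.univ.filter (fun u => |B u - B v| < |A u - A v|)).card) : False := by
  let α : Fin 5 → ℝ := fun v => A v + B v
  let β : Fin 5 → ℝ := fun v => A v - B v
  have k1 : ∀ u v, |A u - A v| < |B u - B v| → (α u - α v) * (β u - β v) < 0 := by
    intro u v h
    have := sq_lt_sq.2 h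
    simp only [α, β]
    nlinarith
  have k2 : ∀ u v, |B u - B v| < |A u - A v| → 0 < (α u - α v) * (β u - β v) := by
    intro u v h
    have := sq_lt_sq.2 h
    simp only [α, β]
    nlinarith
  obtain ⟨v, -, hv⟩ := Finset.exists_min_image Finset.univ α Finset.univ_nonempty
  obtain ⟨w, -, hw⟩ := Finset.exists_max_image Finset.univ α Finset.univ_nonempty
  simp only [Finset.mem_univ, true_imp_iff] at hv hw
  let U : Fin 5 → Finset (Fin 5) := fun v => Finset.univ.filter (fun u => β v < β u)
  let D : Fin 5 → Finset (Fin 5) := fun v => Finset.univ.filter (fun u => β u < β v)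
  have Uv : 2 ≤ (U v).card := (h2 v).trans (Finset.card_le_card fun u hu => by
    simp only [U, Finset.mem_filter, Finset.mem_univ, true_and] at hu ⊢
    have := k2 u v hu
    have := hv u
    by_contra hc
    nlinarith)
  have Dv : 2 ≤ (D v).card := (h1 v).trans (Finset.card_le_card fun u hu => by
    simp only [D, Finset.mem_filter, Finset.mem_univ, true_and] at hu ⊢
    have := k1 u v hu
    have := hv u
    by_contra hc
    nlinarith)
  have Uw : 2 ≤ (U w).card := (h1 w).trans (Finset.card_le_card fun u hu => by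
    simp only [U, Finset.mem_filter, Finset.mem_univ, true_and] at hu ⊢
    have := k1 u w hu
    have := hw u
    by_contra hc
    nlinarith)
  have Dw : 2 ≤ (D w).card := (h2 w).trans (Finset.card_le_card fun u hu => by
    simp only [D, Finset.mem_filter, Finset.mem_univ, true_and] at hu ⊢
    have := k2 u w hu
    have := hw u
    by_contra hc
    nlinarith)
  have hvw : v ≠ w := by
    rintro rfl
    obtain ⟨u, hu⟩ := Finset.card_pos.1 (lt_of_lt_of_le (by norm_num) (h1 v))
    simp only [Finset.mem_filter, Finset.mem_univ, true_and] at hu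
    have h3 := k1 u v hu
    have : α u = α v := le_antisymm (hw u) (hv u)
    rw [this] at h3
    simp at h3
  have key : ∀ x y : Fin 5, x ≠ y → β x ≤ β y → 2 ≤ (D x).card → 2 ≤ (U y).card → False := by
    intro x y hxy hle a1 a2
    have d1 : Disjoint (D x) (U y) := by
      rw [Finset.disjoint_left]
      intro u h3 h4
      simp only [U, D, Finset.mem_filter, Finset.mem_univ, true_and] at h3 h4
      linarith
    have d2 : Disjoint (D x ∪ U y) {x, y} := by
      rw [Finset.disjoint_right]
      intro u h3 h4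
      simp only [U, D, Finset.mem_filter, Finset.mem_univ, true_and, Finset.mem_union,
        Finset.mem_insert, Finset.mem_singleton] at h3 h4
      rcases h3 with rfl | rfl <;> rcases h4 with h4 | h4 <;> linarith
    have c1 := Finset.card_le_univ ((D x ∪ U y) ∪ {x, y})
    rw [Finset.card_union_of_disjoint d2, Finset.card_union_of_disjoint d1,
      Finset.card_pair hxy, Fintype.card_fin] at c1
    omega
  rcases le_total (β v) (β w) with h | h
  · exact key v w hvw h Dv Uw
  · exact key w v hvw.symm h Dw Uv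

theorem not_rr {q : ℝ≥0∞} {a b : (Fin 2 → ℝ) →ₗ[ℝ] ℝ}
    (hN : ∀ x, lqNorm q x = max |a x| |b x|) {e e' : Fin 2 → ℝ} (he : a e = 0) (he0 : e ≠ 0)
    (he' : b e' = 0) (he0' : e' ≠ 0) (p : Fin 5 → Fin 2 → ℝ) :
    ¬ RedundantlyRigid q (⊤ : SimpleGraph (Fin 5)) p := fun h =>
  five_points (fun v => a (p v)) (fun v => b (p v)) (two_le_card hN he he0 h)
    (two_le_card (fun x => by rw [hN, max_comm]) he' he0' h)

theorem not_rr_top (p : Fin 5 → Fin 2 → ℝ) : ¬ RedundantlyRigid ⊤ (⊤ : SimpleGraph (Fin 5)) p := by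
  refine not_rr (a := LinearMap.proj 0) (b := LinearMap.proj 1) (e := ![0, 1]) (e' := ![1, 0])
    (fun x => ?_) (by simp) (fun h => by simpa using congrFun h 1) (by simp)
    (fun h => by simpa using congrFun h 0) p
  simp only [lqNorm, PiLp.norm_toLp, LinearMap.proj_apply]
  apply le_antisymm
  · refine (pi_norm_le_iff_of_nonneg (by positivity)).2 fun i => ?_
    fin_cases i
    · exact le_max_left _ _
    · exact le_max_right _ _
  · exact max_le (norm_le_pi_norm x 0) (norm_le_pi_norm x 1)

theorem not_rr_one (p : Fin 5 → Fin 2 → ℝ) : ¬ RedundantlyRigid 1 (⊤ : SimpleGraph (Fin 5)) p := by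
  let p0 : (Fin 2 → ℝ) →ₗ[ℝ] ℝ := LinearMap.proj 0
  let p1 : (Fin 2 → ℝ) →ₗ[ℝ] ℝ := LinearMap.proj 1
  refine not_rr (a := p0 + p1) (b := p0 - p1) (e := ![1, -1]) (e' := ![1, 1])
    (fun x => ?_) (by simp [p0, p1]) (fun h => by simpa using congrFun h 0) (by simp [p0, p1])
    (fun h => by simpa using congrFun h 0) p
  simp only [lqNorm, PiLp.norm_eq_of_L1, Fin.sum_univ_two, Real.norm_eq_abs, LinearMap.add_apply,
    LinearMap.sub_apply, LinearMap.proj_apply, p0, p1]
  rcases abs_cases (x 0) with h0 | h0 <;> rcases abs_cases (x 1) with h1 | h1 <;>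
    rcases abs_cases (x 0 + x 1) with h2 | h2 <;> rcases abs_cases (x 0 - x 1) with h3 | h3 <;>
    rcases max_cases |x 0 + x 1| |x 0 - x 1| with h4 | h4 <;> linarith

open SimpleGraph in
theorem ham_K5 : HamiltonUnion 2 (⊤ : SimpleGraph (Fin 5)) := by
  let c1 : (⊤ : SimpleGraph (Fin 5)).Walk 0 0 :=
    .cons (v := 1) (by decide) (.cons (v := 2) (by decide) (.cons (v := 3) (by decide)
      (.cons (v := 4) (by decide) (.cons (v := 0) (by decide) .nil))))
  let c2 : (⊤ : SimpleGraph (Fin 5)).Walk 0 0 :=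
    .cons (v := 2) (by decide) (.cons (v := 4) (by decide) (.cons (v := 1) (by decide)
      (.cons (v := 3) (by decide) (.cons (v := 0) (by decide) .nil))))
  refine ⟨fun _ => 0, ![c1, c2], fun i => ?_, fun e he => ?_⟩
  · rw [Walk.isHamiltonianCycle_iff_isCycle_and_length_eq, Walk.isCycle_def, Walk.isTrail_def]
    fin_cases i
    · refine ⟨⟨by decide, by simp [c1], by decide⟩, by decide⟩
    · refine ⟨⟨by decide, by simp [c2], by decide⟩, by decide⟩
  · induction e using Sym2.ind with
    | _ u v =>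
      simp only [mem_edgeSet, top_adj] at he
      simp only [ExistsUnique]
      revert u v
      decide

end Pool.Agent.H440Z.Rig
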