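import Pool.Agent.H440Z.Rig.Gen
import Pool.Agent.H440Z.Rig.K5

/-!
# Redundant rigidity of unions of Hamilton cycles
-/

set_option autoImplicit false
set_option linter.all false

namespace Pool.Agent.H440Z.Rig

open scoped ENNReal
open Matrix

abbrev JJ (n d : ℕ) := {t : Fin n × Fin n × Fin d // t.1 < t.2.1}

abbrev J0 (n : ℕ) := {t : Fin n × Fin n // t.1 < t.2}

variable {V : Type} [Fintype V] [DecidableEq V] {n d : ℕ}

open Classical in
noncomputable def RM {A : Type} [CommRing A] (σ : Fin n → V) (G : SimpleGraph V) (v0 : V)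
    (w : JJ n d → A) : Matrix (J0 n ⊕ Fin d) (V × Fin d) A := fun row col =>
  match row with
  | Sum.inl t => if G.Adj (σ t.1.1) (σ t.1.2) then w ⟨(t.1.1, t.1.2, col.2), t.2⟩ *
      ((if col.1 = σ t.1.1 then 1 else 0) - (if col.1 = σ t.1.2 then 1 else 0)) else 0
  | Sum.inr k => if col = (v0, k) then 1 else 0

theorem RM_map {A B : Type} [CommRing A] [CommRing B] (f : A →+* B) (σ : Fin n → V)
    (G : SimpleGraph V) (v0 : V) (w : JJ n d → A) :
    (RM σ G v0 w).map f = RM σ G v0 (fun j => f (w j)) := by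
  ext row col
  rcases row with t | k
  · simp only [RM, Matrix.map_apply]
    split_ifs <;> simp
  · simp only [RM, Matrix.map_apply]
    split_ifs <;> simp

theorem RM_ker (σ : Fin n → V) (G : SimpleGraph V) (v0 : V) (w : JJ n d → ℝ) (m : V × Fin d → ℝ) :
    RM σ G v0 w *ᵥ m = 0 ↔ (∀ a b (h : a < b), G.Adj (σ a) (σ b) →
      ∑ k, w ⟨(a, b, k), h⟩ * (m (σ a, k) - m (σ b, k)) = 0) ∧ ∀ k, m (v0, k) = 0 := by
  have e1 : ∀ t : J0 n, G.Adj (σ t.1.1) (σ t.1.2) → (RM σ G v0 w *ᵥ m) (Sum.inl t) =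
      ∑ k, w ⟨(t.1.1, t.1.2, k), t.2⟩ * (m (σ t.1.1, k) - m (σ t.1.2, k)) := by
    intro t ht
    simp only [mulVec, dotProduct, RM, if_pos ht, Fintype.sum_prod_type_right]
    refine Finset.sum_congr rfl fun k _ => ?_
    simp [mul_sub, sub_mul, Finset.sum_sub_distrib]
  have e2 : ∀ t : J0 n, ¬ G.Adj (σ t.1.1) (σ t.1.2) → (RM σ G v0 w *ᵥ m) (Sum.inl t) = 0 := by
    intro t ht
    simp [mulVec, dotProduct, RM, if_neg ht]
  have e3 : ∀ k, (RM σ G v0 w *ᵥ m) (Sum.inr k) = m (v0, k) := by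
    intro k
    simp [mulVec, dotProduct, RM]
  constructor
  · intro h
    exact ⟨fun a b hab hadj => by rw [← e1 ⟨(a, b), hab⟩ hadj, h]; rfl,
      fun k => by rw [← e3, h]; rfl⟩
  · rintro ⟨h1, h2⟩
    funext row
    rcases row with t | k
    · by_cases ht : G.Adj (σ t.1.1) (σ t.1.2)
      · rw [e1 t ht]
        exact h1 _ _ t.2 ht
      · exact e2 t ht
    · rw [e3]
      exact h2 k

theorem gram_det {ρ κ : Type} [Fintype ρ] [Fintype κ] [DecidableEq κ] (R : Matrix ρ κ ℝ) :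
    (Rᵀ * R).det ≠ 0 ↔ ∀ m, R *ᵥ m = 0 → m = 0 := by
  rw [Ne, ← Matrix.exists_mulVec_eq_zero_iff]
  have : ∀ m, (Rᵀ * R) *ᵥ m = 0 ↔ R *ᵥ m = 0 := by
    intro m
    have := congrArg (fun S => m ∈ S) (Matrix.ker_mulVecLin_transpose_mul_self R)
    simp only [LinearMap.mem_ker, Matrix.mulVecLin_apply] at this
    exact iff_of_eq this
  simp only [this]
  push Not
  exact ⟨fun h m hm => by_contra fun h0 => h m h0 hm, fun h m h0 hm => h0 (h m hm)⟩

noncomputable def PP (σ : Fin n → V) (G : SimpleGraph V) (v0 : V) : MvPolynomial (JJ n d) ℝ :=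
  Matrix.det (((RM σ G v0 (MvPolynomial.X : JJ n d → MvPolynomial (JJ n d) ℝ))ᵀ *
    RM σ G v0 (MvPolynomial.X : JJ n d → MvPolynomial (JJ n d) ℝ) :
      Matrix (V × Fin d) (V × Fin d) (MvPolynomial (JJ n d) ℝ)))

theorem eval_PP (σ : Fin n → V) (G : SimpleGraph V) (v0 : V) (w : JJ n d → ℝ) :
    MvPolynomial.eval w (PP σ G v0) = ((RM σ G v0 w)ᵀ * RM σ G v0 w).det := by
  rw [PP, RingHom.map_det, RingHom.mapMatrix_apply, Matrix.map_mul, Matrix.transpose_map, RM_map]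
  simp

theorem PP_ne_zero (σ : Fin n ≃ V) {G : SimpleGraph V} (hG : HamiltonUnion d G) (v0 : V)
    (e : Sym2 V) : PP (d := d) σ (G.deleteEdges {e}) v0 ≠ 0 := by
  classical
  obtain ⟨v, H, h1, h2⟩ := hG
  intro h0
  have := eval_PP σ (G.deleteEdges {e}) v0
    (fun j : JJ n d => if s(σ j.1.1, σ j.1.2.1) ∈ (H j.1.2.2).edges then (1 : ℝ) else 0)
  rw [h0, map_zero] at this
  refine (gram_det _).2 (fun m hm => ?_) this.symm
  rw [RM_ker] at hm
  have key : ∀ k a b, a < b → s(σ a, σ b) ∈ (H k).edges → s(σ a, σ b) ≠ e →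
      m (σ a, k) = m (σ b, k) := by
    intro k a b hab hk hne
    have hadj : G.Adj (σ a) (σ b) := (H k).adj_of_mem_edges hk
    have := hm.1 a b hab (by simpa using ⟨hadj, hne⟩)
    obtain ⟨k0, -, hu⟩ := h2 s(σ a, σ b) hadj
    rw [Finset.sum_eq_single k] at this
    · simpa [hk, sub_eq_zero] using this
    · intro k' _ hk'
      rw [if_neg (fun h => hk' ((hu k' h).trans (hu k hk).symm)), zero_mul]
    · simp
  funext ⟨a, k⟩
  have hc := cycle_const (fun z => m (z, k)) (h1 k) e (by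
    intro a b hab hne
    obtain ⟨a, rfl⟩ := σ.surjective a
    obtain ⟨b, rfl⟩ := σ.surjective b
    rcases lt_trichotomy a b with h | rfl | h
    · exact key k a b h hab hne
    · rfl
    · exact (key k b a h (by rwa [Sym2.eq_swap]) (by rwa [Sym2.eq_swap])).symm)
  have : m (a, k) = m (v0, k) := (hc a).trans (hc v0).symm
  rw [this, hm.2]
  rfl

theorem rigid_of_eval (σ : Fin n ≃ V) (G : SimpleGraph V) (v0 : V) {q : ℝ} (hq : 1 < q)
    (p : V → Fin d → ℝ) (hp : ∀ u v, u ≠ v → p u - p v ≠ 0)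
    (h : MvPolynomial.eval (fun j : JJ n d =>
      |p (σ j.1.1) j.1.2.2 - p (σ j.1.2.1) j.1.2.2| ^ (q - 2) *
        (p (σ j.1.1) j.1.2.2 - p (σ j.1.2.1) j.1.2.2)) (PP σ G v0) ≠ 0)
    {m : V → Fin d → ℝ} (hm : IsFlex (ENNReal.ofReal q) G p m) (u v : V) : m u = m v := by
  rw [eval_PP, gram_det] at h
  have := h (fun z => m z.1 z.2 - m v0 z.2) (by
    rw [RM_ker]
    refine ⟨fun a b hab hadj => ?_, fun k => sub_self _⟩
    obtain ⟨c, hc, -, h3⟩ := lq_deriv hq (hp _ _ hadj.ne)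
    have := hm _ _ hadj
    rw [h3, mul_eq_zero] at this
    have := this.resolve_left hc
    simpa using this)
  funext k
  have a1 := congrFun this (u, k)
  have a2 := congrFun this (v, k)
  simp only [Pi.zero_apply, sub_eq_zero] at a1 a2
  rw [a1, a2]

theorem generic (hd : 1 ≤ d) {G : SimpleGraph V} (hG : HamiltonUnion d G) :
    {q : ℝ | 1 < q ∧ ¬ ∃ p : V → Fin d → ℝ, RedundantlyRigid (ENNReal.ofReal q) G p}.Finite := by
  classical
  have v0 : V := (Classical.choose hG) ⟨0, hd⟩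
  set n := Fintype.card V with hn
  let σ : Fin n ≃ V := (Fintype.equivFin V).symm
  obtain ⟨x, hx1, hx2⟩ := exists_generic n d
  let p : V → Fin d → ℝ := fun z k => x (σ.symm z) k
  let D : JJ n d → ℤ := fun j => (x j.1.1 j.1.2.2 : ℤ) - x j.1.2.1 j.1.2.2
  have hD0 : ∀ j, D j ≠ 0 := fun j h => hx1 _ _ j.1.2.2 j.2 (by simpa [D, sub_eq_zero] using h)
  have hD : ∀ j : JJ n d, p (σ j.1.1) j.1.2.2 - p (σ j.1.2.1) j.1.2.2 = D j := by
    intro j
    simp [p, D]
  have hp : ∀ u v, u ≠ v → p u - p v ≠ 0 := by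
    intro u v huv h
    have h1 := congrFun h ⟨0, hd⟩
    simp only [p, Pi.sub_apply, Pi.zero_apply, sub_eq_zero, Nat.cast_inj] at h1
    rcases lt_trichotomy (σ.symm u) (σ.symm v) with h2 | h2 | h2
    · exact hx1 _ _ _ h2 h1
    · exact huv (σ.symm.injective h2)
    · exact hx1 _ _ _ h2 h1.symm
  let P : MvPolynomial (JJ n d) ℝ := ∏ e : Sym2 V, PP σ (G.deleteEdges {e}) v0
  have hP : P ≠ 0 := Finset.prod_ne_zero_iff.2 fun e _ => PP_ne_zero σ hG v0 e
  let mm : (JJ n d →₀ ℕ) → ℝ := fun α => ((∏ j, (D j).natAbs ^ α j : ℕ) : ℝ)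
  let aa : (JJ n d →₀ ℕ) → ℝ := fun α => P.coeff α * ∏ j, ((D j : ℝ) / |(D j : ℝ)|) ^ α j
  have hDR : ∀ j, (D j : ℝ) ≠ 0 := fun j => by exact_mod_cast hD0 j
  have hfin := expsum_finite P.support aa mm
    (fun α _ => by
      simp only [mm, Nat.cast_pos]
      exact Finset.prod_pos fun j _ => pow_pos (Int.natAbs_pos.2 (hD0 j)) _)
    (fun α _ β _ h => hx2 (by simpa only [mm, Nat.cast_inj] using h))
    (fun α hα => mul_ne_zero (MvPolynomial.mem_support_iff.1 hα)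
      (Finset.prod_ne_zero_iff.2 fun j _ => pow_ne_zero _
        (div_ne_zero (hDR j) (abs_ne_zero.2 (hDR j)))))
    (by simpa [Finset.nonempty_iff_ne_empty] using hP)
  refine (hfin.image (· + 1)).subset ?_
  rintro q ⟨hq, hno⟩
  refine ⟨q - 1, ⟨by linarith, ?_⟩, by ring⟩
  by_contra hne
  apply hno
  have hev : MvPolynomial.eval (fun j : JJ n d =>
      |p (σ j.1.1) j.1.2.2 - p (σ j.1.2.1) j.1.2.2| ^ (q - 2) *
        (p (σ j.1.1) j.1.2.2 - p (σ j.1.2.1) j.1.2.2)) P ≠ 0 := by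
    rw [MvPolynomial.eval_eq']
    convert hne using 1
    refine Finset.sum_congr rfl fun α _ => ?_
    simp only [aa, mm, hD, mul_assoc]
    congr 1
    push_cast
    rw [← Real.finset_prod_rpow _ _ (fun j _ => by positivity), ← Finset.prod_mul_distrib]
    refine Finset.prod_congr rfl fun j _ => ?_
    have ha : 0 < |(D j : ℝ)| := abs_pos.2 (hDR j)
    rw [Nat.cast_natAbs, Int.cast_abs, ← Real.rpow_natCast |(D j : ℝ)|, ← Real.rpow_mul ha.le,
      mul_comm (α j : ℝ), Real.rpow_mul ha.le, Real.rpow_natCast, ← mul_pow]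
    congr 1
    rw [show q - 1 = (q - 2) + 1 by ring, Real.rpow_add_one ha.ne']
    field_simp
  simp only [P, map_prod, Finset.prod_ne_zero_iff] at hev
  have hw : ∀ G' : SimpleGraph V, WellPositioned (ENNReal.ofReal q) G' p := fun G' u v h =>
    (lq_deriv hq (hp u v h.ne)).choose_spec.2.1
  have hr : ∀ e, Rigid (ENNReal.ofReal q) (G.deleteEdges {e}) p := fun e =>
    ⟨hw _, fun m hm => rigid_of_eval σ _ v0 hq p hp (hev e (Finset.mem_univ _)) hm⟩
  exact ⟨p, ⟨hw _, fun m hm => (hr s(v0, v0)).2 m fun u v h =>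
    hm u v (SimpleGraph.deleteEdges_adj.1 h).1⟩, fun e _ => hr e⟩

end Pool.Agent.H440Z.Rig
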